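import Pool.Agent.Helper83_AEU.Tools

/-!
Module C3a of squad AEU, Part II: a critical body which contains two non-adjacent vertices is
the segment between them.
-/

namespace Pool.Agent.AEU.H83

open MeasureTheory Complex Filter Topology Pool.Agent.H62T Pool.Agent.AEU
open Pool.Agent.H16F (Sublin)

theorem c3a (hsup : SupStatement) (hlam : LamStatement) (hhul : HulStatement)
    (hper : PerStatement) (huni : UniStatement) (hver : VerStatement) (hmix : MixStatement)
    (hlc : LcStatement) (hlm : LmStatement) (hsld : SldStatement) : C3aStatement := by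
  intro P Q gP gQ L h hc i j k l v w hv hw hvh hwh hik hil hjk hjl hne
  have hsp : Special P h := hc.unm.1
  have hV := hver P gP.pg gP.g1
  obtain ⟨hit, hjt⟩ := hV.2.2.2.2.2.2.2.1 i j v h hv hsp.fits hvh
  obtain ⟨hkt, hlt⟩ := hV.2.2.2.2.2.2.2.1 k l w h hw hsp.fits hwh
  have hvw : v ≠ w := by
    intro e
    rcases hV.1 i j v hv k hw.mem₁ (e ▸ hw.on₁) with h1 | h1
    · exact hik h1.symm
    · exact hjk h1.symm
  have hvV : Vx P v := ⟨i, j, hv⟩
  have hwV : Vx P w := ⟨k, l, hw⟩
  -- the segment
  obtain ⟨g, hg1, hg2⟩ := step hlc hhul hmix gP gQ hc ![v, w]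
    (by intro a; fin_cases a; exacts [hv.cl, hw.cl])
    (by
      rw [← hc.lam]
      exact lam_lt hlam hhul hsp.sub _ (by intro a; fin_cases a; exacts [hvh, hwh]) hne)
    {i, j, k, l}
    (by
      intro s hs
      simp only [Finset.mem_insert, Finset.mem_singleton] at hs
      rcases hs with rfl | rfl | rfl | rfl
      · exact ⟨hit, 0, hv.on₁⟩
      · exact ⟨hjt, 0, hv.on₂⟩
      · exact ⟨hkt, 1, hw.on₁⟩
      · exact ⟨hlt, 1, hw.on₂⟩)
    (by
      rw [Finset.card_insert_of_notMem (by simp [hv.ne, hik, hil]),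
        Finset.card_insert_of_notMem (by simp [hjk, hjl]), Finset.card_pair hw.ne]
      norm_num)
    hvV hvh 0 rfl
  have hgi : mv g i ∈ Q := hg2 i (by simp)
  have hgj : mv g j ∈ Q := hg2 j (by simp)
  have hgk : mv g k ∈ Q := hg2 k (by simp)
  have hgl : mv g l ∈ Q := hg2 l (by simp)
  refine hlm P Q gP.pg gQ.pg gP.g1 gQ.g1 L h hc ⟨g, hg1, fun r hr => ?_⟩
  by_cases hr0 : r ∈ ({i, j, k, l} : Finset HP)
  · exact hg2 r hr0
  simp only [Finset.mem_insert, Finset.mem_singleton, not_or] at hr0
  obtain ⟨hri, hrj, hrk, hrl⟩ := hr0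
  have hrP : r ∈ P := (mem_touch.1 hr).1
  obtain ⟨x, hxh, hxr⟩ := contact hsup hsp.sub hr
  have hxP : x ∈ Cl P := hV.2.2.2.2.2.2.1 h hsp.fits x hxh
  by_cases h1 : h = hf ![v, w, x]
  · -- the whole body is the triangle
    have hxs : x ∉ segment ℝ v w := by
      intro hx
      exact hne (h1.trans (hf_three_eq hhul hx))
    have hcol := not_collinear hver gP.pg gP.g1 hvV hwV hvw hv.cl hw.cl hxP hxs
    obtain ⟨s, hs, w', hw'P, hw's, hlt'⟩ := hsld P gP.pg gP.g1 k l w hw v hv.cl x hxP hcol
    have hsk : s ∈ touch P h ∧ mv g s ∈ Q ∧ s ∈ P ∧ s ≠ i ∧ s ≠ j ∧ s ≠ r := by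
      rcases hs with rfl | rfl
      · exact ⟨hkt, hgk, hw.mem₁, hik.symm, hjk.symm, Ne.symm hrk⟩
      · exact ⟨hlt, hgl, hw.mem₂, hil.symm, hjl.symm, Ne.symm hrl⟩
    obtain ⟨hst, hgs, hsP, hsi, hsj, hsr⟩ := hsk
    have hl2 : lam (hf ![v, w', x]) < L := by
      rw [← hc.lam, h1, hper.2.1, hper.2.1]
      linarith
    obtain ⟨g', hg1', hg2'⟩ := step hlc hhul hmix gP gQ hc ![v, w', x]
      (by intro a; fin_cases a; exacts [hv.cl, hw'P, hxP]) hl2 {i, j, s, r}
      (by
        intro t ht
        simp only [Finset.mem_insert, Finset.mem_singleton] at ht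
        rcases ht with rfl | rfl | rfl | rfl
        · exact ⟨hit, 0, hv.on₁⟩
        · exact ⟨hjt, 0, hv.on₂⟩
        · exact ⟨hst, 1, hw's⟩
        · exact ⟨hr, 2, hxr⟩)
      (by
        rw [Finset.card_insert_of_notMem (by simp [hv.ne, hsi.symm, Ne.symm hri]),
          Finset.card_insert_of_notMem (by simp [hsj.symm, Ne.symm hrj]), Finset.card_pair hsr]
        norm_num)
      hvV hvh 0 rfl
    have hgg : g = g' := (huni.2 P Q gP.pg gQ.pg gP.g1 gQ.g1 g g').2 {i, j, s}
      (by
        intro t ht
        simp only [Finset.mem_insert, Finset.mem_singleton] at ht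
        rcases ht with rfl | rfl | rfl
        exacts [hv.mem₁, hv.mem₂, hsP])
      (by
        rw [Finset.card_insert_of_notMem (by simp [hv.ne, hsi.symm]),
          Finset.card_pair hsj.symm])
      (by
        intro t ht
        simp only [Finset.mem_insert, Finset.mem_singleton] at ht
        rcases ht with rfl | rfl | rfl
        exacts [hgi, hgj, hgs])
      (by
        intro t ht
        simp only [Finset.mem_insert, Finset.mem_singleton] at ht
        rcases ht with rfl | rfl | rfl
        exacts [hg2' _ (by simp), hg2' _ (by simp), hg2' _ (by simp)])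
    rw [hgg]
    exact hg2' r (by simp)
  · obtain ⟨g', hg1', hg2'⟩ := step hlc hhul hmix gP gQ hc ![v, w, x]
      (by intro a; fin_cases a; exacts [hv.cl, hw.cl, hxP])
      (by
        rw [← hc.lam]
        exact lam_lt hlam hhul hsp.sub _
          (by intro a; fin_cases a; exacts [hvh, hwh, hxh]) h1)
      {i, j, k, r}
      (by
        intro t ht
        simp only [Finset.mem_insert, Finset.mem_singleton] at ht
        rcases ht with rfl | rfl | rfl | rfl
        · exact ⟨hit, 0, hv.on₁⟩
        · exact ⟨hjt, 0, hv.on₂⟩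
        · exact ⟨hkt, 1, hw.on₁⟩
        · exact ⟨hr, 2, hxr⟩)
      (by
        rw [Finset.card_insert_of_notMem (by simp [hv.ne, hik, Ne.symm hri]),
          Finset.card_insert_of_notMem (by simp [hjk, Ne.symm hrj]),
          Finset.card_pair (Ne.symm hrk)]
        norm_num)
      hvV hvh 0 rfl
    have hgg : g = g' := (huni.2 P Q gP.pg gQ.pg gP.g1 gQ.g1 g g').2 {i, j, k}
      (by
        intro t ht
        simp only [Finset.mem_insert, Finset.mem_singleton] at ht
        rcases ht with rfl | rfl | rfl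
        exacts [hv.mem₁, hv.mem₂, hw.mem₁])
      (by
        rw [Finset.card_insert_of_notMem (by simp [hv.ne, hik]), Finset.card_pair hjk])
      (by
        intro t ht
        simp only [Finset.mem_insert, Finset.mem_singleton] at ht
        rcases ht with rfl | rfl | rfl
        exacts [hgi, hgj, hgk])
      (by
        intro t ht
        simp only [Finset.mem_insert, Finset.mem_singleton] at ht
        rcases ht with rfl | rfl | rfl
        exacts [hg2' _ (by simp), hg2' _ (by simp), hg2' _ (by simp)])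
    rw [hgg]
    exact hg2' r (by simp)

end Pool.Agent.AEU.H83
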