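import Pool.Agent.Helper83_AEU.Tools

/-!
Module C4 of squad AEU, Part II: a critical body with two adjacent vertices and no non-adjacent
ones is of type A.
-/

namespace Pool.Agent.AEU.H83

open MeasureTheory Complex Filter Topology Pool.Agent.H62T Pool.Agent.AEU
open Pool.Agent.H16F (Sublin)

lemma ip_sub' (u a b : ℂ) : ip u (a - b) = ip u a - ip u b := by
  simp [ip]
  ring

lemma norm_sq_ip (z : ℂ) : ‖z‖ ^ 2 = ip z z := by
  rw [← Complex.normSq_eq_norm_sq, Complex.normSq_apply]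
  rfl

lemma planar {a b p q : ℂ} (ha : ‖a‖ = 1) (h1 : ip a p = 0) (h2 : ip b q = 0) (h3 : ip b p < 0)
    (h4 : ip a q < 0) (h5 : ip a b < 0) : 0 < ip p q := by
  have ha2 : ip a a = 1 := by rw [← norm_sq_ip, ha]; norm_num
  have e1 : ip p q = dt a p * dt a q := by
    have : ip a a * ip p q = ip a p * ip a q + dt a p * dt a q := by simp only [ip, dt]; ring
    rw [ha2, h1] at this
    linarith
  have e2 : ip b p = dt a b * dt a p := by
    have : ip a a * ip b p = ip a b * ip a p + dt a b * dt a p := by simp only [ip, dt]; ring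
    rw [ha2, h1] at this
    linarith
  have e3 : dt a b * dt a q = -(ip a b * ip a q) := by
    have : ip a a * ip b q = ip a b * ip a q + dt a b * dt a q := by simp only [ip, dt]; ring
    rw [ha2, h2] at this
    linarith
  have h6 : 0 < ip a b * ip a q := mul_pos_of_neg_of_neg h5 h4
  have h7 : 0 < (dt a b * dt a p) * (dt a b * dt a q) := by
    apply mul_pos_of_neg_of_neg
    · rw [← e2]; exact h3
    · rw [e3]; linarith
  have h8 : 0 < dt a b ^ 2 * (dt a p * dt a q) := by
    have : (dt a b * dt a p) * (dt a b * dt a q) = dt a b ^ 2 * (dt a p * dt a q) := by ring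
    rwa [this] at h7
  rw [e1]
  by_contra hc
  exact absurd h8 (not_lt.2 (mul_nonpos_of_nonneg_of_nonpos (sq_nonneg _) (not_lt.1 hc)))

/-- at an acute angle the end of a side can be moved to the other side -/
lemma acute_slide (hver : VerStatement) {P : Finset HP} (hP : Pg P) (hG : G1 P) {j k : HP}
    {v w : ℂ} (hw : VxOf P j k w) (hvP : v ∈ Cl P) (hvj : ip j.1 v = j.2) (hvw : v ≠ w)
    (hac : ip j.1 k.1 < 0) : ∃ w' ∈ Cl P, ip k.1 w' = k.2 ∧ ‖v - w'‖ < ‖v - w‖ := by
  obtain ⟨y, hy1, hy2⟩ := hP.side k hw.mem₂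
  have hyP : y ∈ Cl P := by
    intro s hs
    rcases eq_or_ne s k with rfl | h
    · exact hy1.le
    · exact (hy2 s hs h).le
  have hvk : ip k.1 v < k.2 := by
    rcases lt_or_eq_of_le (hvP k hw.mem₂) with h | h
    · exact h
    · exact absurd ((hver P hP hG).2.2.2.1 j k v w ⟨hvP, hw.mem₁, hw.mem₂, hw.ne, hvj, h⟩ hw) hvw
  have hA : 0 < ip (v - w) (y - w) := by
    apply planar (a := j.1) (b := k.1) (hP.unit j hw.mem₁)
    · rw [ip_sub', hvj, hw.on₁, sub_self]
    · rw [ip_sub', hy1, hw.on₂, sub_self]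
    · rw [ip_sub', hw.on₂]; linarith
    · rw [ip_sub', hw.on₁]; linarith [hy2 j hw.mem₁ hw.ne]
    · exact hac
  set A := ip (v - w) (y - w) with hAdef
  set B := ip (y - w) (y - w) with hBdef
  have hB : 0 ≤ B := by rw [hBdef, ← norm_sq_ip]; positivity
  set s := A / (A + B) with hs
  have hs0 : 0 < s := by positivity
  have hs1 : s ≤ 1 := by rw [hs, div_le_one (by positivity)]; linarith
  refine ⟨w + s • (y - w), ?_, ?_, ?_⟩
  · intro t ht
    have e : ip t.1 (w + s • (y - w)) = (1 - s) * ip t.1 w + s * ip t.1 y := by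
      simp [ip]
      ring
    rw [e]
    have h1 := hw.cl t ht
    have h2 := hyP t ht
    nlinarith
  · have e : ip k.1 (w + s • (y - w)) = (1 - s) * ip k.1 w + s * ip k.1 y := by
      simp [ip]
      ring
    rw [e, hw.on₂, hy1]
    ring
  · have e : ‖v - (w + s • (y - w))‖ ^ 2 = ‖v - w‖ ^ 2 - 2 * s * A + s ^ 2 * B := by
      rw [norm_sq_ip, norm_sq_ip, hAdef, hBdef]
      simp [ip]
      ring
    have hsB : s * (A + B) = A := by
      rw [hs]; field_simp
    have hlt : ‖v - (w + s • (y - w))‖ ^ 2 < ‖v - w‖ ^ 2 := by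
      rw [e]
      nlinarith [mul_pos hs0 hA]
    exact lt_of_pow_lt_pow_left₀ 2 (norm_nonneg _) hlt

theorem c4 (hsup : SupStatement) (hlam : LamStatement) (hhul : HulStatement)
    (hper : PerStatement) (hk4 : K4Statement) (hver : VerStatement) (hmix : MixStatement)
    (hlc : LcStatement) (hlm : LmStatement) : C4Statement := by
  intro P Q gP gQ L h hc i j k v w hv hw hvh hwh hik hadj
  have hsp : Special P h := hc.unm.1
  have hV := hver P gP.pg gP.g1
  obtain ⟨hit, hjt⟩ := hV.2.2.2.2.2.2.2.1 i j v h hv hsp.fits hvh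
  obtain ⟨-, hkt⟩ := hV.2.2.2.2.2.2.2.1 j k w h hw hsp.fits hwh
  have hij : i ≠ j := hv.ne
  have hjk : j ≠ k := hw.ne
  have hvw : v ≠ w := by
    intro e
    rcases hV.1 i j v hv k hw.mem₂ (e ▸ hw.on₂) with h1 | h1
    · exact hik h1.symm
    · exact hjk h1.symm
  have hvV : Vx P v := ⟨i, j, hv⟩
  have hwV : Vx P w := ⟨j, k, hw⟩
  have card3 : ∀ a b c : HP, a ≠ b → a ≠ c → b ≠ c → 3 ≤ ({a, b, c} : Finset HP).card := by
    intro a b c h1 h2 h3
    rw [Finset.card_insert_of_notMem (by simp [h1, h2]), Finset.card_pair h3]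
  have body : h = hf ![v, w] := by
    by_contra hne
    obtain ⟨g, hg1, hg2⟩ := step hlc hhul hmix gP gQ hc ![v, w]
      (by intro a; fin_cases a; exacts [hv.cl, hw.cl])
      (by
        rw [← hc.lam]
        exact lam_lt hlam hhul hsp.sub _ (by intro a; fin_cases a; exacts [hvh, hwh]) hne)
      {i, j, k}
      (by
        intro s hs
        simp only [Finset.mem_insert, Finset.mem_singleton] at hs
        rcases hs with rfl | rfl | rfl
        · exact ⟨hit, 0, hv.on₁⟩
        · exact ⟨hjt, 0, hv.on₂⟩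
        · exact ⟨hkt, 1, hw.on₂⟩)
      (card3 i j k hij hik hjk) hvV hvh 0 rfl
    refine hlm P Q gP.pg gQ.pg gP.g1 gQ.g1 L h hc ⟨g, hg1, fun r hr => ?_⟩
    by_cases hr0 : r ∈ ({i, j, k} : Finset HP)
    · exact hg2 r hr0
    simp only [Finset.mem_insert, Finset.mem_singleton, not_or] at hr0
    obtain ⟨hri, hrj, hrk⟩ := hr0
    have hrP : r ∈ P := (mem_touch.1 hr).1
    obtain ⟨x, hxh, hxr⟩ := contact hsup hsp.sub hr
    have hxP : x ∈ Cl P := hV.2.2.2.2.2.2.1 h hsp.fits x hxh
    have n1 : h ≠ hf ![v, x] := by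
      intro e
      have hk := hkt
      rw [e, ((hmix P).2.2 1 ![v, x] (by intro a; fin_cases a; exacts [hv.cl, hxP])).2] at hk
      obtain ⟨-, a, ha⟩ := hk
      fin_cases a
      · rcases hV.1 i j v hv k hw.mem₂ ha with h1 | h1
        · exact hik h1.symm
        · exact hjk h1.symm
      · rcases hadj i j k r v x hv ⟨hxP, hw.mem₂, hrP, Ne.symm hrk, ha, hxr⟩ hvh hxh with
          h1 | h1 | h1 | h1
        exacts [hik h1, hri h1.symm, hjk h1, hrj h1.symm]
    have n2 : h ≠ hf ![w, x] := by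
      intro e
      have hi := hit
      rw [e, ((hmix P).2.2 1 ![w, x] (by intro a; fin_cases a; exacts [hw.cl, hxP])).2] at hi
      obtain ⟨-, a, ha⟩ := hi
      fin_cases a
      · rcases hV.1 j k w hw i hv.mem₁ ha with h1 | h1
        exacts [hij h1, hik h1]
      · rcases hadj i r j k x w ⟨hxP, hv.mem₁, hrP, Ne.symm hri, ha, hxr⟩ hw hxh hwh with
          h1 | h1 | h1 | h1
        exacts [hij h1, hik h1, hrj h1, hrk h1]
    obtain ⟨g', -, hg2'⟩ := step hlc hhul hmix gP gQ hc ![v, x]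
      (by intro a; fin_cases a; exacts [hv.cl, hxP])
      (by
        rw [← hc.lam]
        exact lam_lt hlam hhul hsp.sub _ (by intro a; fin_cases a; exacts [hvh, hxh]) n1)
      {j, i, r}
      (by
        intro s hs
        simp only [Finset.mem_insert, Finset.mem_singleton] at hs
        rcases hs with rfl | rfl | rfl
        · exact ⟨hjt, 0, hv.on₂⟩
        · exact ⟨hit, 0, hv.on₁⟩
        · exact ⟨hr, 1, hxr⟩)
      (card3 j i r hij.symm (Ne.symm hrj) (Ne.symm hri)) hvV hvh 0 rfl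
    obtain ⟨g'', -, hg2''⟩ := step hlc hhul hmix gP gQ hc ![w, x]
      (by intro a; fin_cases a; exacts [hw.cl, hxP])
      (by
        rw [← hc.lam]
        exact lam_lt hlam hhul hsp.sub _ (by intro a; fin_cases a; exacts [hwh, hxh]) n2)
      {j, k, r}
      (by
        intro s hs
        simp only [Finset.mem_insert, Finset.mem_singleton] at hs
        rcases hs with rfl | rfl | rfl
        · exact ⟨hjt, 0, hw.on₁⟩
        · exact ⟨hkt, 0, hw.on₂⟩
        · exact ⟨hr, 1, hxr⟩)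
      (card3 j k r hjk (Ne.symm hrj) (Ne.symm hrk)) hwV hwh 0 rfl
    have hgg := (hk4 P Q gP.pg gQ.pg gP.g1 gQ.g1 g g' g'' j i k r hv.mem₂ hv.mem₁ hw.mem₂ hrP
      hij.symm hjk (Ne.symm hrj) hik (Ne.symm hri) (Ne.symm hrk) (hg2 _ (by simp))
      (hg2 _ (by simp)) (hg2 _ (by simp)) (hg2' _ (by simp)) (hg2' _ (by simp))
      (hg2' _ (by simp)) (hg2'' _ (by simp)) (hg2'' _ (by simp)) (hg2'' _ (by simp))).1
    rw [hgg]
    exact hg2' r (by simp)
  -- the body is the edge
  have htch : ∀ s ∈ touch P h, s = i ∨ s = j ∨ s = k := by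
    intro s hs
    rw [body, ((hmix P).2.2 1 ![v, w] (by intro a; fin_cases a; exacts [hv.cl, hw.cl])).2] at hs
    obtain ⟨hsP, a, ha⟩ := hs
    fin_cases a
    · rcases hV.1 i j v hv s hsP ha with h1 | h1
      exacts [Or.inl h1, Or.inr (Or.inl h1)]
    · rcases hV.1 j k w hw s hsP ha with h1 | h1
      exacts [Or.inr (Or.inl h1), Or.inr (Or.inr h1)]
  have hL : L = 2 * ‖v - w‖ := by rw [← hc.lam, body, hper.1]
  have key : ∀ g, Fits Q (mb g h) → (∀ s ∈ ({i, j, k} : Finset HP), mv g s ∈ Q) → False := by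
    intro g hg1 hg2
    refine hlm P Q gP.pg gQ.pg gP.g1 gQ.g1 L h hc ⟨g, hg1, fun r hr => ?_⟩
    rcases htch r hr with rfl | rfl | rfl
    exacts [hg2 _ (by simp), hg2 _ (by simp), hg2 _ (by simp)]
  refine ⟨hv, hw, hik, ?_, ?_, body⟩
  · by_contra hneg
    have hac : ip j.1 i.1 < 0 := by
      have h1 : ip j.1 i.1 = ip i.1 j.1 := by simp [ip]; ring
      rw [h1]
      exact lt_of_le_of_ne (not_lt.1 hneg) (gP.g1.ne0 i hv.mem₁ j hv.mem₂ hij)
    have hv' : VxOf P j i v := ⟨hv.cl, hv.mem₂, hv.mem₁, hij.symm, hv.on₂, hv.on₁⟩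
    obtain ⟨x, hxP, hxi, hlt⟩ := acute_slide hver gP.pg gP.g1 hv' hw.cl hw.on₁ hvw.symm hac
    obtain ⟨g, hg1, hg2⟩ := step hlc hhul hmix gP gQ hc ![w, x]
      (by intro a; fin_cases a; exacts [hw.cl, hxP])
      (by
        rw [hper.1, hL, norm_sub_rev v w]
        linarith)
      {i, j, k}
      (by
        intro s hs
        simp only [Finset.mem_insert, Finset.mem_singleton] at hs
        rcases hs with rfl | rfl | rfl
        · exact ⟨hit, 1, hxi⟩
        · exact ⟨hjt, 0, hw.on₁⟩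
        · exact ⟨hkt, 0, hw.on₂⟩)
      (card3 i j k hij hik hjk) hwV hwh 0 rfl
    exact key g hg1 hg2
  · by_contra hneg
    have hac : ip j.1 k.1 < 0 :=
      lt_of_le_of_ne (not_lt.1 hneg) (gP.g1.ne0 j hw.mem₁ k hw.mem₂ hjk)
    obtain ⟨x, hxP, hxk, hlt⟩ := acute_slide hver gP.pg gP.g1 hw hv.cl hv.on₂ hvw hac
    obtain ⟨g, hg1, hg2⟩ := step hlc hhul hmix gP gQ hc ![v, x]
      (by intro a; fin_cases a; exacts [hv.cl, hxP])
      (by
        rw [hper.1, hL]
        linarith)
      {i, j, k}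
      (by
        intro s hs
        simp only [Finset.mem_insert, Finset.mem_singleton] at hs
        rcases hs with rfl | rfl | rfl
        · exact ⟨hit, 0, hv.on₁⟩
        · exact ⟨hjt, 0, hv.on₂⟩
        · exact ⟨hkt, 1, hxk⟩)
      (card3 i j k hij hik hjk) hvV hvh 0 rfl
    exact key g hg1 hg2

end Pool.Agent.AEU.H83
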