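import Pool.Agent.Helper83_AEU.Tools

/-!
Module NCL of squad AEU, Part II: classification of the triples which are touched at the critical
level, but not by a matched special body.
-/

namespace Pool.Agent.AEU.H83

open MeasureTheory Complex Filter Topology Pool.Agent.H62T Pool.Agent.AEU
open Pool.Agent.H16F (Sublin)

lemma ip_comm' (a b : ℂ) : ip a b = ip b a := by
  simp [ip]
  ring

theorem ncl (htam : TamStatement) (hgho : GhoStatement) (hbrd : BrdStatement)
    (halt : AltStatement) (halc : AlcStatement) (hell : EllStatement) (htya : TyaStatement)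
    (htyb : TybStatement) : NclStatement := by
  intro P Q gP gQ L hL hA hA' hG hG' S hSP hS3 hN
  obtain ⟨hok, -, hcl⟩ := htam P Q gP gQ L hA hA' hG hG'
  obtain ⟨⟨h₀, hs₀, hf₀, hl₀, ht₀⟩, hnm⟩ := hN
  have hunit : ∀ s ∈ S, ‖s.1‖ = 1 := fun s hs => gP.pg.unit s (hSP hs)
  -- bodies touching more than three sides
  have hcard : ∀ h, Sublin h → Fits P h → S ⊆ touch P h → lam h ≤ L → (touch P h).card ≤ 3 := by
    intro h hs hf ht hl
    by_contra hc
    have hc4 : 4 ≤ (touch P h).card := by omega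
    have hsp : Special P h := ⟨hs, hf, by omega, Or.inr hc4⟩
    rcases hok h hsp hl with ⟨g, hg⟩ | ⟨h3, -⟩
    · exact hnm ⟨g, h, hsp, hg, hl, ht⟩
    · omega
  -- special bodies touching `S`
  have hspc : ∀ h, Special P h → S ⊆ touch P h → lam h ≤ L → Unm P Q h ∧ lam h = L := by
    intro h hsp ht hl
    have hun : ¬ ∃ g, Mat P Q g h := fun ⟨g, hg⟩ => hnm ⟨g, h, hsp, hg, hl, ht⟩
    refine ⟨⟨hsp, hun⟩, le_antisymm hl ?_⟩
    by_contra hlt
    exact hun (hA h hsp (not_le.1 hlt))
  have hdist : ∀ a b c : HP, S = {a, b, c} → a ≠ b ∧ a ≠ c ∧ b ≠ c := by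
    intro a b c e
    rw [e] at hS3
    refine ⟨?_, ?_, ?_⟩
    · rintro rfl
      have := Finset.card_le_two (a := a) (b := c)
      rw [Finset.insert_idem] at hS3
      omega
    · rintro rfl
      have := Finset.card_le_two (a := b) (b := a)
      rw [Finset.insert_comm, Finset.insert_eq_of_mem (Finset.mem_singleton_self a)] at hS3
      omega
    · rintro rfl
      have := Finset.card_le_two (a := a) (b := b)
      rw [Finset.insert_eq_of_mem (Finset.mem_singleton_self b)] at hS3
      omega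
  by_cases hex : ∃ h, Special P h ∧ S ⊆ touch P h ∧ lam h ≤ L
  · obtain ⟨h, hsp, ht, hl⟩ := hex
    obtain ⟨hun, hlL⟩ := hspc h hsp ht hl
    rcases hcl h hun hlL with ⟨i, j, k, v, w, hT⟩ | ⟨i, j, q, v, d, hT⟩
    · obtain ⟨hTri, htouch, -⟩ := htya P gP.pg gP.g1 h i j k v w hT
      rw [htouch] at ht
      have hS : S = {i, j, k} := by
        apply Finset.eq_of_subset_of_card_le ht
        rw [hS3]
        exact Finset.card_le_three
      exact Or.inr (Or.inr (Or.inl ⟨h, i, j, k, v, w, hun, hlL, hT, hS⟩))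
    · obtain ⟨hTri, htouch, -, hv, hl2, hlB, -⟩ := htyb P gP.pg gP.g1 h i j q v d hT
      have htS := ht
      rw [htouch] at ht
      have hS : S = {i, j, q} := by
        apply Finset.eq_of_subset_of_card_le ht
        rw [hS3]
        exact Finset.card_le_three
      refine Or.inr (Or.inr (Or.inr ⟨h, i, j, q, v, d, hun, hlL, hT, hS, ?_⟩))
      by_cases hpos : 0 < ip i.1 j.1
      · exact Or.inl hpos
      right
      obtain ⟨hiP, hjP, hqP, hij, hiq, hjq⟩ := hTri
      have hneg : ip i.1 j.1 < 0 :=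
        lt_of_le_of_ne (not_lt.1 hpos) (gP.g1.ne0 i hiP j hjP hij)
      obtain ⟨h', hs', hf', ht', hl'⟩ := hbrd P gP.pg gP.g1 h i j q v d hT hneg
      have hGh : Ghost P S := by
        refine ⟨hSP, hS3, h', hs', hf', by rw [ht', hS], ?_⟩
        intro h'' hsp'' ht''
        by_contra hc
        have hl3 : lam h'' < L := lt_of_le_of_lt (not_lt.1 hc) (hl'.trans_eq hlL)
        have := (hspc h'' hsp'' ht'' hl3.le).2
        linarith
      obtain ⟨hac, -, -, -, -, -, hmin⟩ := hgho P gP S hGh
      have hellL : ell S < L := (hmin h' hs' hf' (by rw [ht', hS])).trans_lt (hl'.trans_eq hlL)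
      have hS' := hS
      have hiS : i ∈ S := by rw [hS]; simp
      have hjS : j ∈ S := by rw [hS]; simp
      have hqS : q ∈ S := by rw [hS]; simp
      have e1 : ip i.1 q.1 < 0 := hac i hiS q hqS hiq
      have e2 : ip j.1 q.1 < 0 := hac j hjS q hqS hjq
      have hui := hunit i hiS
      have huj := hunit j hjS
      have huq := hunit q hqS
      have hd : q.2 - ip q.1 (vx i j) = d := by
        have h1 := hT.foot
        have h2 : ip q.1 (v + (d : ℂ) * q.1) = ip q.1 v + d * ‖q.1‖ ^ 2 := by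
          rw [← Complex.normSq_eq_norm_sq, Complex.normSq_apply]
          simp [ip]
          ring
        rw [h2, huq] at h1
        rw [← hv]
        linarith
      have hT' : TypeB P h j i q v d :=
        ⟨⟨hT.vi.cl, hT.vi.mem₂, hT.vi.mem₁, hT.vi.ne.symm, hT.vi.on₂, hT.vi.on₁⟩, hT.qP, hT.pos,
          hT.foot, hT.inner, hT.body⟩
      obtain ⟨-, -, -, hv', -, hlB', -⟩ := htyb P gP.pg gP.g1 h j i q v d hT'
      have hd' : q.2 - ip q.1 (vx j i) = d := by rw [← hv', hv, hd]
      have hdL : d = L / 2 := by rw [← hlL, hl2]; ring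
      -- the other altitudes are longer
      have hother : ∀ a b c : HP, S = {a, b, c} → c ≠ q → L / 2 < c.2 - ip c.1 (vx a b) := by
        intro a b c hSe hcq
        obtain ⟨hab, hac', hbc⟩ := hdist a b c hSe
        by_contra hcon
        obtain ⟨h3, hT3⟩ := (halt P gP S L hSP hS3 hac ⟨h₀, hs₀, hf₀, hl₀, ht₀⟩ hcard a b c
          hSe).2 (not_lt.1 hcon)
        obtain ⟨hTri3, htouch3, hsp3, -, hl3, hlB3, -⟩ := htyb P gP.pg gP.g1 h3 a b c _ _ hT3
        have h3L := (hspc h3 hsp3 (by rw [htouch3, hSe]) (by rw [hl3]; linarith)).2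
        have := (gP.g2.bb i j q a b c ⟨hiP, hjP, hqP, hij, hiq, hjq⟩ hTri3
          (by rw [← hlB, ← hlB3, hlL, h3L])).1
        exact hcq this.symm
      have hA1 := halc i j q hui huj huq hneg e1 e2
      have hA2 := halc j i q huj hui huq (by rw [ip_comm']; exact hneg) e2 e1
      rw [hd] at hA1
      rw [hd'] at hA2
      obtain ⟨p1, -, -, p2⟩ := hA1.2 hT.pos
      obtain ⟨-, -, -, p3⟩ := hA2.2 hT.pos
      refine ⟨hGh, hac, ?_, hellL, ?_, ?_⟩
      · rw [hS, hell.1 i j q hij hiq hjq]
        exact p1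
      · apply p2.1
        rw [hdL]
        apply hother i q j _ hjq
        rw [hS, Finset.pair_comm q j]
      · rw [ip_comm' i.1 j.1]
        apply p3.1
        rw [hdL]
        apply hother j q i _ hiq
        rw [hS]
        ext x
        simp only [Finset.mem_insert, Finset.mem_singleton]
        tauto
  · have hex' : ∀ h, Special P h → S ⊆ touch P h → L < lam h := by
      intro h h1 h2
      by_contra h3
      exact hex ⟨h, h1, h2, not_lt.1 h3⟩
    clear hex
    rename _ => hex
    have hGh : Ghost P S :=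
      ⟨hSP, hS3, h₀, hs₀, hf₀, ht₀, fun h' hsp' ht' => hl₀.trans_lt (hex h' hsp' ht')⟩
    obtain ⟨hac, -, -, -, -, -, hmin⟩ := hgho P gP S hGh
    have hellL : ell S ≤ L := (hmin h₀ hs₀ hf₀ ht₀).trans hl₀
    have halt' : ∀ i j q, S = {i, j, q} → L / 2 < q.2 - ip q.1 (vx i j) := by
      intro i j q hSe
      by_contra hcon
      obtain ⟨h3, hT3⟩ := (halt P gP S L hSP hS3 hac ⟨h₀, hs₀, hf₀, hl₀, ht₀⟩ hcard i j q
        hSe).2 (not_lt.1 hcon)
      obtain ⟨-, htouch3, hsp3, -, hl3, -, -⟩ := htyb P gP.pg gP.g1 h3 i j q _ _ hT3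
      have := hex h3 hsp3 (by rw [htouch3, hSe])
      rw [hl3] at this
      linarith
    rcases lt_or_eq_of_le hellL with hlt | heq
    · refine Or.inl ⟨hGh, hS3, hunit, hac, hlt, ?_, halt'⟩
      obtain ⟨i, j, q, hij, hiq, hjq, hSe⟩ := Finset.card_eq_three.1 hS3
      have hiS : i ∈ S := by rw [hSe]; simp
      have hjS : j ∈ S := by rw [hSe]; simp
      have hqS : q ∈ S := by rw [hSe]; simp
      have hh := halt' i j q hSe
      rw [hSe, hell.1 i j q hij hiq hjq]
      exact ((halc i j q (hunit i hiS) (hunit j hjS) (hunit q hqS) (hac i hiS j hjS hij)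
        (hac i hiS q hqS hiq) (hac j hjS q hqS hjq)).2 (by linarith)).1
    · exact Or.inr (Or.inl ⟨hGh, hS3, hac, heq, halt'⟩)

end Pool.Agent.AEU.H83
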