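import Pool.Agent.Helper25_AEU.Stmt

/-!
Squad AEU, Part II: common tools for the modules C3a, C4.
-/

namespace Pool.Agent.AEU.H83

open MeasureTheory Complex Filter Topology Pool.Agent.H62T Pool.Agent.AEU
open Pool.Agent.H16F (Sublin)

lemma mem_touch {P : Finset HP} {h : ℂ → ℝ} {s : HP} :
    s ∈ touch P h ↔ s ∈ P ∧ h s.1 = s.2 := by
  simp [touch]

/-- a contact point -/
lemma contact (hsup : SupStatement) {P : Finset HP} {h : ℂ → ℝ} (hs : Sublin h) {r : HP}
    (hr : r ∈ touch P h) : ∃ x, In x h ∧ ip r.1 x = r.2 := by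
  obtain ⟨x, hx, hx'⟩ := (hsup h hs).2.2.2 r.1
  exact ⟨x, hx, hx'.trans (mem_touch.1 hr).2⟩

/-- strict monotonicity of the perimeter -/
lemma lam_lt (hlam : LamStatement) (hhul : HulStatement) {h : ℂ → ℝ} (hs : Sublin h) {m : ℕ}
    (x : Fin (m + 1) → ℂ) (hx : ∀ i, In (x i) h) (hne : h ≠ hf x) : lam (hf x) < lam h := by
  have h1 := (hhul m x).1
  have h2 := (hhul m x).2.2.2.1 h hx
  have h3 := hlam.2.1 (hf x) h h1 hs h2
  by_contra hc
  exact hne (h3.2 (not_lt.1 hc)).symm

/-- Lemma C for a critical body and the hull of finitely many of its points -/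
lemma step (hlc : LcStatement) (hhul : HulStatement) (hmix : MixStatement)
    {P Q : Finset HP} {L : ℝ} {h : ℂ → ℝ} (gP : Gen P) (gQ : Gen Q) (hc : Crit P Q L h)
    {m : ℕ} (x : Fin (m + 1) → ℂ) (hx : ∀ i, x i ∈ Cl P) (hl : lam (hf x) < L)
    (T : Finset HP) (hT : ∀ s ∈ T, s ∈ touch P h ∧ ∃ i, ip s.1 (x i) = s.2) (h3 : 3 ≤ T.card)
    {v : ℂ} (hv : Vx P v) (hvh : In v h) (i0 : Fin (m + 1)) (hvi : x i0 = v) :
    ∃ g, Fits Q (mb g h) ∧ ∀ s ∈ T, mv g s ∈ Q := by
  have hsp : Special P h := hc.unm.1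
  obtain ⟨hfit, htch⟩ := (hmix P).2.2 m x hx
  have hsub : T ⊆ touch P (hf x) ∩ touch P h := by
    intro s hs
    obtain ⟨h1, h2⟩ := hT s hs
    exact Finset.mem_inter.2 ⟨(htch s).2 ⟨(mem_touch.1 h1).1, h2⟩, h1⟩
  obtain ⟨g, hg1, hg2, hg3⟩ := hlc P Q gP.pg gQ.pg gP.g1 gQ.g1 L hc.all (hf x) h (hhul m x).1
    hsp.sub hfit hsp.fits hl hc.lam.le (h3.trans (Finset.card_le_card hsub))
    (Or.inl ⟨v, hv, hvi ▸ (hhul m x).2.1 i0, hvh⟩)
  exact ⟨g, hg2, fun s hs => hg3 s (hsub hs)⟩

/-- a vertex of the polygon cannot lie between two other points -/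
lemma not_between (hver : VerStatement) {P : Finset HP} (hP : Pg P) (hG : G1 P) {v a b : ℂ}
    (hv : Vx P v) (ha : a ∈ Cl P) (hb : b ∈ Cl P) (hs : v ∈ segment ℝ a b) : v = a ∨ v = b := by
  rcases eq_or_ne v a with h | h
  · exact Or.inl h
  rcases eq_or_ne v b with h' | h'
  · exact Or.inr h'
  have := mem_openSegment_of_ne_left_right h.symm h'.symm hs
  exact Or.inl ((hver P hP hG).2.2.1 v hv a ha b hb this).1.symm

/-- three points of the closed polygon, two of which are different vertices, are not collinear,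
unless the third one lies between them -/
lemma not_collinear (hver : VerStatement) {P : Finset HP} (hP : Pg P) (hG : G1 P) {v w x : ℂ}
    (hv : Vx P v) (hw : Vx P w) (hvw : v ≠ w) (hvP : v ∈ Cl P) (hwP : w ∈ Cl P) (hx : x ∈ Cl P)
    (hs : x ∉ segment ℝ v w) : ¬ Collinear ℝ {v, w, x} := by
  intro hcol
  rcases hcol.wbtw_or_wbtw_or_wbtw with h1 | h1 | h1
  · have h2 : w ∈ segment ℝ v x := mem_segment_iff_wbtw.2 h1
    rcases not_between hver hP hG hw hvP hx h2 with h3 | h3
    · exact hvw h3.symm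
    · exact hs (h3 ▸ right_mem_segment ℝ v w)
  · have h2 : x ∈ segment ℝ w v := mem_segment_iff_wbtw.2 h1
    exact hs (segment_symm ℝ w v ▸ h2)
  · have h2 : v ∈ segment ℝ x w := mem_segment_iff_wbtw.2 h1
    rcases not_between hver hP hG hv hx hwP h2 with h3 | h3
    · exact hs (h3 ▸ left_mem_segment ℝ v w)
    · exact hvw h3

lemma ip_comb (u a b : ℂ) (s t : ℝ) : ip u (s • a + t • b) = s * ip u a + t * ip u b := by
  simp [ip]
  ring

/-- adding a point of the segment does not change the hull of two points -/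
lemma hf_three_eq (hhul : HulStatement) {v w x : ℂ} (hx : x ∈ segment ℝ v w) :
    hf ![v, w, x] = hf ![v, w] := by
  funext u
  apply le_antisymm
  · refine ((hhul 2 ![v, w, x]).2.2.2.2.1 u _).2 ?_
    have hv := (hhul 1 ![v, w]).2.1 0 u
    have hw := (hhul 1 ![v, w]).2.1 1 u
    simp only [Matrix.cons_val_zero, Matrix.cons_val_one] at hv hw
    obtain ⟨a, b, ha, hb, hab, rfl⟩ := hx
    intro i
    fin_cases i
    · simpa using hv
    · simpa using hw
    · show ip u (a • v + b • w) ≤ _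
      rw [ip_comb]
      have e : a * hf ![v, w] u + b * hf ![v, w] u = hf ![v, w] u := by
        rw [← add_mul, hab, one_mul]
      linarith [mul_le_mul_of_nonneg_left hv ha, mul_le_mul_of_nonneg_left hw hb]
  · refine ((hhul 1 ![v, w]).2.2.2.2.1 u _).2 ?_
    have hv := (hhul 2 ![v, w, x]).2.1 0 u
    have hw := (hhul 2 ![v, w, x]).2.1 1 u
    simp only [Matrix.cons_val_zero, Matrix.cons_val_one] at hv hw
    intro i
    fin_cases i
    · simpa using hv
    · simpa using hw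

end Pool.Agent.AEU.H83
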